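import Pool.Agent.TH762.E2.Rec

/-!
# Bounded formulas define all predicates in `ℰ²_*` iff they can name wrong values

Say that a function `f : ℕ → {0, ..., k}` is avoided by a class of predicates if there is a function
`g : ℕ → {0, ..., k}` with `g x ≠ f x` for all `x` whose level sets are in the class. We prove:
`Δ₀ = ℰ²_*` if and only if for some constant `k` every `ℰ²` function `f : ℕ → {0, ..., k}` is
avoided by `Δ₀`. For `k = 1` avoiding `f` is the same as computing it; for larger `k` one only has to
name one of the `k + 1` values that is not taken, which leaves `k` candidates. The same holds for
every class `D` of predicates which is closed under bounded quantification in place of `Δ₀`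
(for instance `Δ₀` with counting quantifiers): `D` contains `ℰ²_*` if and only if for some `k` it
avoids the `ℰ²` functions with values `0, ..., k`.

Proof. Let `F(y, v)` be defined by limited recursion from functions with graphs in `D`. The tuples
`(F(t₁, v), ..., F(t_k, v))` are coded by numbers; for any `k + 1` codes the number of those codes
which are at most the true one is an `ℰ²` function with values `0, ..., k`, so one of the codes can be
excluded. This gives for all `t₁, ..., t_k` a list of at most `k` candidates for the tuple, among them
the true one. Then for some `d < k` there are `k - d - 1` numbers `t` such that their true values,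
together with the value at a further number, survive the extensions by `d` numbers in exactly one
way (`MC.world`); so the function `t ↦ F(t, v)` can be defined from these few values by a bounded
formula, and whether the values are right is checked with the recursion equations.
-/

set_option autoImplicit false

namespace Pool.Agent.Results.MP_a56640_lc.AvoidedValue

open Pool.Agent.TH762.E2

/-- `Delta0` are the predicates defined by bounded formulas, `E2s` those in `ℰ²_*` (both as in the
frozen statement). They are equal iff for some `k` each function of `ℰ²` with values `0..k` can be
avoided by a function with values `0..k` and `Delta0` level sets; and the same for `E2s ⊆ D` for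
every class `D` closed under polynomial (in)equalities, Boolean operations, polynomially bounded
quantification and renaming of variables. -/
theorem result :
    ((∀ (n : ℕ) (R : (Fin n → ℕ) → Prop), R ∈ Delta0 n ↔ R ∈ E2s n) ↔
      ∃ k : ℕ, Avoid Delta0 k) ∧
    ∀ D : (n : ℕ) → Set ((Fin n → ℕ) → Prop), Clo D →
      ((∀ (n : ℕ) (R : (Fin n → ℕ) → Prop), R ∈ E2s n → R ∈ D n) ↔ ∃ k : ℕ, Avoid D k) :=
  ⟨law_delta0, fun _ hD => law hD⟩

end Pool.Agent.Results.MP_a56640_lc.AvoidedValue
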