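import Pool.Agent.TH93.LN.Fin

/-!
# The oracles relative to which linear space is in the linear time hierarchy

The predicates in `Δ₀` are those in the linear time hierarchy, and `ℰ²_*` is deterministic linear
space. Let `C` be a relativized class of languages which contains the languages decided by one random
question of linear length (`OneQ`) and is contained in the class given by alternating quantifiers of
linear length in front of polynomial time with polynomial advice and with questions of linear length
(`InLH`), for instance the linear time hierarchy. Let `D` be a relativized class of languages which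
contains the parity language and such that the languages in `D` are given by some functional from a
list `Ψ` which gets the strings of linear length in the oracle (`Loc0 Ψ`), for instance deterministic
linear space. `InTime Lin A` is the class `E` relative to `A`. For every gauge `f`, the set of the
oracles relative to which `D` is contained in `C`, the set of the oracles relative to which `D` is
contained in `C` but `E` is not given by any list `Ψ'` of functionals which get the strings of
linear length in the oracle and `2 ^ n / (n + 1)` bits of advice, and all sets `O` in between are null
sets for `f` if and only if for every `ε > 0` there are infinitely many `N` with `f N ≤ N ^ ε`.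
-/

set_option autoImplicit false

namespace Pool.Agent.Results.MP_a56640_lc.GaugeThreshold

open Pool.Agent.NPC Pool.Agent.H620R2.Gauge Pool.Agent.H622R2.Exp Pool.Agent.TH93.LN

theorem result (f : ℕ → ℝ) (Ψ Ψ' : ℕ → Oracle → List Bool → Prop)
    (C D : Oracle → Set (List Bool) → Prop)
    (h₁ : ∀ A L, OneQ A L → C A L) (h₂ : ∀ A L, C A L → InLH A L)
    (h₃ : ∀ A, D A (parLang A)) (h₄ : ∀ A L, D A L → Loc0 Ψ A L) (O : Set Oracle)
    (h₅ : {A : Oracle | (∀ L, D A L → C A L) ∧ ∃ L, InTime Lin A L ∧ ¬ LocalTo Ψ' A L} ⊆ O)
    (h₆ : O ⊆ {A : Oracle | ∀ L, D A L → C A L}) :
    Null f O ↔ ∀ ε : ℝ, 0 < ε → ∃ᶠ N : ℕ in Filter.atTop, f N ≤ (N : ℝ) ^ ε :=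
  lsGauge f Ψ Ψ' C D h₁ h₂ h₃ h₄ O h₅ h₆

end Pool.Agent.Results.MP_a56640_lc.GaugeThreshold
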