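import Pool.Agent.TH733.RG.Lin
import Pool.Agent.TH93.LN.Fin

/-!
# Common translates of independent random oracles: linear space and the linear time hierarchy

The predicates in `Δ₀` are those in the linear time hierarchy, and `ℰ²_*` is deterministic linear
space. Let `C` be a relativized class of languages which contains the languages decided by one
random question of linear length (`OneQ`) and is contained in the class given by alternating
quantifiers of linear length in front of polynomial time with polynomial advice and with questions
of linear length (`InLH`), for instance the linear time hierarchy. Let `D` be a relativized class of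
languages which contains the parity language and such that the languages in `D` are given by some
functional from a list `Ψ` which gets the strings of linear length in the oracle (`Loc0 Ψ`), for
instance deterministic linear space. `xor2 A B` is the symmetric difference of the oracles `A` and
`B`, the translate of `A` by `B`.

* For every sequence `B 0, B 1, ...` of oracles there is one oracle `A` such that `D` is contained
  in `C` relative to every translate of `A` by a `B i`.
* Let the `B i` be independent random oracles. Almost surely, for every set `I` of numbers there is
  one oracle `A` such that, relative to the translate by `B i`, `D` is contained in `C` if and only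
  if `i` is in `I`.

Proof. `A` codes, by strings of linear length, the languages relative to its translates by the
`B i`, `i ∈ I`, masked by `B i`; on the strings of length at most `n` it depends on `I` only below
`log n`; for a fixed `I` the translate by an independent random oracle is random; and the oracles
with `D ⊆ C` form a null set for slowly growing gauges (`TH93/LN/Par.lean`).
-/

set_option autoImplicit false

namespace Pool.Agent.Results.MP_a56640_lc.IndependentTranslates

open Pool.Agent.NPC Pool.Agent.H620R2.Gauge Pool.Agent.TH93.LN MeasureTheory
open Pool.Agent.TH733.RT (xor2 randomSeq)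
open Pool.Agent.TH733.RG

theorem result (Ψ : ℕ → Oracle → List Bool → Prop) (C D : Oracle → Set (List Bool) → Prop)
    (h₁ : ∀ A L, OneQ A L → C A L) (h₂ : ∀ A L, C A L → InLH A L)
    (h₃ : ∀ A, D A (parLang A)) (h₄ : ∀ A L, D A L → Loc0 Ψ A L) :
    (∀ B : ℕ → Oracle, ∃ A : Oracle, ∀ i L, D (xor2 A (B i)) L → C (xor2 A (B i)) L) ∧
    ∀ᵐ B ∂randomSeq, ∀ I : Set ℕ, ∃ A : Oracle, ∀ i,
      (i ∈ I ↔ ∀ L, D (xor2 A (B i)) L → C (xor2 A (B i)) L) := by
  obtain ⟨h5, h6⟩ := use_lin Ψ (S := {A : Oracle | ∀ L, D A L → C A L})
    (null_par lcond_slow _ fun A hA => h₂ A _ (hA _ (h₃ A)))
  refine ⟨fun B => ?_, ?_⟩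
  · obtain ⟨A, hA⟩ := h5 B
    exact ⟨A, fun i L hL => h₁ _ L (hA i L (h₄ _ L hL))⟩
  · filter_upwards [h6] with B hB I
    obtain ⟨A, h7, h8⟩ := hB I
    refine ⟨A, fun i => ⟨fun hi L hL => h₁ _ L (h7 i hi L (h₄ _ L hL)), fun h => ?_⟩⟩
    by_contra hi
    exact h8 i hi h

end Pool.Agent.Results.MP_a56640_lc.IndependentTranslates
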